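import Pool.Agent.BKT.LocalGen
import Pool.Agent.BK.BridgeInd
import Pool.Agent.BK.Bridge
import Pool.Agent.BK.BridgeGal
import Pool.Agent.BK.ComplexGal

/-!
The order of vanishing formula of Bloch and Kato for the twist of a motive by an Artin
representation: given the formula over the totally complex fields over which a given Galois
extension becomes locally trivial, its validity depends only on the values of the character of the
Artin representation at complex conjugations and at certain elements of decomposition groups.
-/

open scoped Pointwise NumberField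
open Polynomial IsDedekindDomain

namespace Pool.Agent.Results.MP_ec4e4b_nt.LocalDefect

open Pool.BK

/-- Let `V` be a system of representations of the Galois group of the number field `K`, `F / K` a
finite Galois extension, `F₁ / K` a finite extension, `T` a finite set of finite places of `K`, `N`
a positive integer and `X` a set of extensions of `K` with finitely many members of each degree.
Suppose that the formula (for a power of the L-function) holds over `K` for the system induced from
the restriction of `V` to `L`, for every totally complex finite `L / K` not in `X` of degree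
divisible by `N` such that `F L / L` is unramified at the finite places and completely split above
`T` and some finite Galois extension `M / K` containing `F₁` and `L` is cyclic over `L`. Suppose
also that it holds for the twists of `V` by the Artin representations `θ j`, `j` in a finite set
`J`. Let `θ₀` be an Artin representation whose character is the combination with rational
coefficients `c j` of those of the `θ j` at every complex conjugation and at every `σ` in a
decomposition group such that the closed subgroup generated by `σ` meets the inertia group outside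
the Galois group of `F`, or `σ` is nontrivial on `F` and the decomposition group lies above `T`.
Then the formula holds for the twist of `V` by `θ₀`, for some positive power of its L-function. -/
theorem result (K : Type) [Field K] [NumberField K] (Ω : Type) [Field Ω] [Algebra K Ω]
    [IsAlgClosed Ω] [Algebra.IsAlgebraic K Ω] (V : LSystem (Ω ≃ₐ[K] Ω))
    (B : ∀ (p : ℕ) [Fact p.Prime], PeriodData (Ω ≃ₐ[K] Ω) (𝓞 Ω) p)
    (F : IntermediateField K Ω) [NumberField F] [Normal K F]
    (F₁ : IntermediateField K Ω) [NumberField F₁]
    (T : Set (HeightOneSpectrum (𝓞 K))) (hT : T.Finite) (N : ℕ) (hN : 0 < N)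
    (X : Set (IntermediateField K Ω))
    (hX : ∀ n : ℕ, 0 < n → {L | L ∈ X ∧ Module.finrank K L = n}.Finite)
    (h : ∀ (L : IntermediateField K Ω) [NumberField L], NumberField.IsTotallyComplex L →
      LocTriv F T L → L ∉ X → N ∣ Module.finrank K L → CyclicIn F₁ L →
      ∃ m : ℕ, 0 < m ∧ IndFormula K L Ω V B m)
    {J : Type} [Fintype J] (r : J → ℕ)
    (θ : ∀ j, (Ω ≃ₐ[K] Ω) →* Matrix (Fin (r j)) (Fin (r j)) ℚ)
    (hθ : ∀ j, IsOpen ((θ j).ker : Set (Ω ≃ₐ[K] Ω)))
    (hform : ∀ j, ∃ m : ℕ, 0 < m ∧ Formula K Ω (V.twist (θ j) (hθ j)) B m)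
    {r₀ : ℕ} (θ₀ : (Ω ≃ₐ[K] Ω) →* Matrix (Fin r₀) (Fin r₀) ℚ)
    (hθ₀ : IsOpen (θ₀.ker : Set (Ω ≃ₐ[K] Ω))) (c : J → ℚ)
    (hc : ∀ σ : Ω ≃ₐ[K] Ω, IsConj σ ∨ IsLoc F T σ →
      (θ₀ σ).trace = ∑ j, c j * (θ j σ).trace) :
    ∃ m : ℕ, 0 < m ∧ Formula K Ω (V.twist θ₀ hθ₀) B m := by
  have halg : ∀ L : IntermediateField K Ω, Algebra.IsAlgebraic L Ω := fun L =>
    Algebra.IsAlgebraic.tower_top (K := K) L
  have hiff : ∀ (L : IntermediateField K Ω) [NumberField L],
      (∃ m : ℕ, 0 < m ∧ IndFormula K L Ω V B m) ↔ (∃ m : ℕ, 0 < m ∧ BKInd K L Ω V B m) :=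
    fun L _ => exists_congr fun m => and_congr_right fun _ => indFormula_iff K L Ω V B m
  obtain ⟨m, hm, hpow⟩ := reduction_local_gen K Ω V B F F₁ T hT N hN X hX
    (fun L _ h1 h2 h3 h4 h5 => (hiff L).1 (h L h1 h2 h3 h4
      (BridgeGal.exists_field (fun Γ _ => IsCyclic Γ)
        (fun Γ Γ' _ _ f hf hΓ => ComplexGal.cyclic_inj f hf hΓ) F₁ L h5))) r θ hθ
    (fun j => by
      obtain ⟨m, hm, hj⟩ := hform j
      exact ⟨m, hm, (formula_iff K Ω _ _ m).1 hj⟩) θ₀ hθ₀ c hc
  exact ⟨m, hm, (formula_iff K Ω _ _ m).2 hpow⟩

end Pool.Agent.Results.MP_ec4e4b_nt.LocalDefect
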